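import Mathlib
import Pool.Agent.W527.CL.Stm

/-!
# The field

The splitting field of `X ^ 5 - 4 X + 2`.  The first part follows
`Archive/Wiedijk100Theorems/AbelRuffini.lean`.
-/

set_option autoImplicit false

namespace Pool.Agent.W308.CL

section AR

open Function Polynomial Polynomial.Gal Ideal

attribute [local instance] splits_ℚ_ℂ

variable (R : Type*) [CommRing R] (a b : ℕ)

/-- A quintic polynomial that we will show is irreducible -/
noncomputable def Φ : R[X] :=
  X ^ 5 - C (a : R) * X + C (b : R)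

variable {R}

@[simp]
theorem map_Phi {S : Type*} [CommRing S] (f : R →+* S) : (Φ R a b).map f = Φ S a b := by simp [Φ]

@[simp]
theorem coeff_zero_Phi : (Φ R a b).coeff 0 = (b : R) := by simp [Φ, coeff_X_pow]

@[simp]
theorem coeff_five_Phi : (Φ R a b).coeff 5 = 1 := by
  simp [Φ, -map_natCast]

variable [Nontrivial R]

theorem degree_Phi : (Φ R a b).degree = ((5 : ℕ) : WithBot ℕ) := by
  suffices degree (X ^ 5 - C (a : R) * X) = ((5 : ℕ) : WithBot ℕ) by
    rwa [Φ, degree_add_eq_left_of_degree_lt]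
    convert! (degree_C_le (R := R)).trans_lt (WithBot.coe_lt_coe.mpr (show 0 < 5 by simp))
  rw [degree_sub_eq_left_of_degree_lt] <;> rw [degree_X_pow]
  exact (degree_C_mul_X_le (a : R)).trans_lt (WithBot.coe_lt_coe.mpr (show 1 < 5 by simp))

theorem natDegree_Phi : (Φ R a b).natDegree = 5 :=
  natDegree_eq_of_degree_eq_some (degree_Phi a b)

theorem leadingCoeff_Phi : (Φ R a b).leadingCoeff = 1 := by
  rw [Polynomial.leadingCoeff, natDegree_Phi, coeff_five_Phi]

theorem monic_Phi : (Φ R a b).Monic :=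
  leadingCoeff_Phi a b

theorem irreducible_Phi (p : ℕ) (hp : p.Prime) (hpa : p ∣ a) (hpb : p ∣ b) (hp2b : ¬p ^ 2 ∣ b) :
    Irreducible (Φ ℚ a b) := by
  rw [← map_Phi a b (Int.castRingHom ℚ), ← IsPrimitive.Int.irreducible_iff_irreducible_map_cast]
  on_goal 1 =>
    apply irreducible_of_eisenstein_criterion
    · rwa [span_singleton_prime (Int.natCast_ne_zero.mpr hp.ne_zero), Int.prime_iff_natAbs_prime]
    · rw [leadingCoeff_Phi, mem_span_singleton]
      exact mod_cast mt Nat.dvd_one.mp hp.ne_one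
    · intro n hn
      rw [mem_span_singleton]
      rw [degree_Phi] at hn; norm_cast at hn
      interval_cases n <;>
      simp +decide only [Φ, coeff_X_pow, coeff_C, Int.natCast_dvd_natCast.mpr,
        hpb, if_true, coeff_C_mul, if_false, coeff_X_zero, hpa, coeff_add, zero_add, mul_zero,
        coeff_sub, add_zero, zero_sub, dvd_neg, neg_zero, dvd_mul_of_dvd_left]
    · simp only [degree_Phi, ← WithBot.coe_zero]
      decide
    · rw [coeff_zero_Phi, span_singleton_pow, mem_span_singleton]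
      exact mt Int.natCast_dvd_natCast.mp hp2b
  all_goals exact Monic.isPrimitive (monic_Phi a b)

attribute [local simp] map_ofNat in -- use `ofNat` simp theorem with bad keys
theorem real_roots_Phi_le : Fintype.card ((Φ ℚ a b).rootSet ℝ) ≤ 3 := by
  rw [← map_Phi a b (algebraMap ℤ ℚ), Φ, ← one_mul (X ^ 5), ← C_1]
  apply (card_rootSet_le_derivative _).trans
    (Nat.succ_le_succ ((card_rootSet_le_derivative _).trans (Nat.succ_le_succ _)))
  suffices (Polynomial.rootSet (C (20 : ℚ) * X ^ 3) ℝ).Subsingleton by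
    norm_num [Fintype.card_le_one_iff_subsingleton, ← mul_assoc] at *
    exact this
  rw [rootSet_C_mul_X_pow] <;>
  norm_num

theorem real_roots_Phi_ge_aux (hab : b < a) :
    ∃ x y : ℝ, x ≠ y ∧ aeval x (Φ ℚ a b) = 0 ∧ aeval y (Φ ℚ a b) = 0 := by
  let f : ℝ → ℝ := fun x : ℝ => aeval x (Φ ℚ a b)
  have hf : f = fun x : ℝ => x ^ 5 - a * x + b := by simp [f, Φ]
  have hc : ∀ s : Set ℝ, ContinuousOn f s := fun s => (Φ ℚ a b).continuousOn_aeval
  have ha : (1 : ℝ) ≤ a := Nat.one_le_cast.mpr (Nat.one_le_of_lt hab)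
  have hle : (0 : ℝ) ≤ 1 := zero_le_one
  have hf0 : 0 ≤ f 0 := by simp [hf]
  by_cases hb : (1 : ℝ) - a + b < 0
  · have hf1 : f 1 < 0 := by simp [hf, hb]
    have hfa : 0 ≤ f a := by
      simp_rw [hf, ← sq]
      refine add_nonneg (sub_nonneg.mpr (pow_right_mono₀ ha ?_)) ?_ <;> norm_num
    obtain ⟨x, ⟨-, hx1⟩, hx2⟩ := intermediate_value_Ico' hle (hc _) (Set.mem_Ioc.mpr ⟨hf1, hf0⟩)
    obtain ⟨y, ⟨hy1, -⟩, hy2⟩ := intermediate_value_Ioc ha (hc _) (Set.mem_Ioc.mpr ⟨hf1, hfa⟩)
    exact ⟨x, y, (hx1.trans hy1).ne, hx2, hy2⟩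
  · replace hb : (b : ℝ) = a - 1 := by linarith [show (b : ℝ) + 1 ≤ a from mod_cast hab]
    have hf1 : f 1 = 0 := by simp [hf, hb]
    have hfa :=
      calc
        f (-a) = (a : ℝ) ^ 2 - (a : ℝ) ^ 5 + b := by
          norm_num [hf, ← sq, sub_eq_add_neg, add_comm, Odd.neg_pow (by decide : Odd 5)]
        _ ≤ (a : ℝ) ^ 2 - (a : ℝ) ^ 3 + (a - 1) := by gcongr <;> linarith
        _ = -((a : ℝ) - 1) ^ 2 * (a + 1) := by ring
        _ ≤ 0 := by nlinarith
    have ha' := neg_nonpos.mpr (hle.trans ha)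
    obtain ⟨x, ⟨-, hx1⟩, hx2⟩ := intermediate_value_Icc ha' (hc _) (Set.mem_Icc.mpr ⟨hfa, hf0⟩)
    exact ⟨x, 1, (hx1.trans_lt zero_lt_one).ne, hx2, hf1⟩

theorem real_roots_Phi_ge (hab : b < a) : 2 ≤ Fintype.card ((Φ ℚ a b).rootSet ℝ) := by
  have q_ne_zero : Φ ℚ a b ≠ 0 := (monic_Phi a b).ne_zero
  obtain ⟨x, y, hxy, hx, hy⟩ := real_roots_Phi_ge_aux a b hab
  have key : ↑({x, y} : Finset ℝ) ⊆ (Φ ℚ a b).rootSet ℝ := by
    simp [Set.insert_subset, mem_rootSet_of_ne q_ne_zero, hx, hy]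
  convert! Fintype.card_le_of_embedding (Set.embeddingOfSubset _ _ key)
  simp only [Finset.coe_sort_coe, Fintype.card_coe, Finset.card_singleton,
    Finset.card_insert_of_notMem (mt Finset.mem_singleton.mp hxy)]

theorem complex_roots_Phi (h : (Φ ℚ a b).Separable) : Fintype.card ((Φ ℚ a b).rootSet ℂ) = 5 :=
  (card_rootSet_eq_natDegree h (IsAlgClosed.splits _)).trans (natDegree_Phi a b)

theorem gal_Phi (hab : b < a) (h_irred : Irreducible (Φ ℚ a b)) :
    Bijective (galActionHom (Φ ℚ a b) ℂ) := by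
  apply galActionHom_bijective_of_prime_degree' h_irred
  · simp only [natDegree_Phi]; decide
  · rw [complex_roots_Phi a b h_irred.separable, Nat.succ_le_succ_iff]
    exact (real_roots_Phi_le a b).trans (Nat.le_succ 3)
  · simp_rw [complex_roots_Phi a b h_irred.separable, Nat.succ_le_succ_iff]
    exact real_roots_Phi_ge a b hab

end AR

open Polynomial

noncomputable section

attribute [local instance] Polynomial.Gal.splits_ℚ_ℂ

/-- the polynomial -/
def f : ℚ[X] := Φ ℚ 4 2

theorem f_irr : Irreducible f := irreducible_Phi 4 2 2 Nat.prime_two (by norm_num) (by norm_num) (by norm_num)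

theorem f_ne : f ≠ 0 := f_irr.ne_zero

theorem f_aeval {A : Type} [Field A] [Algebra ℚ A] (x : A) : aeval x f = x ^ 5 - 4 * x + 2 := by
  simp [f, Φ]

theorem mem_f {A : Type} [Field A] [Algebra ℚ A] (x : A) : x ∈ f.rootSet A ↔ x ^ 5 - 4 * x + 2 = 0 := by
  rw [mem_rootSet_of_ne f_ne, f_aeval]

/-- three real roots -/
theorem real3 : ∃ x y z : ℝ, x < y ∧ y < z ∧ x ^ 5 - 4 * x + 2 = 0 ∧ y ^ 5 - 4 * y + 2 = 0 ∧
    z ^ 5 - 4 * z + 2 = 0 := by
  have hc : Continuous fun x : ℝ => x ^ 5 - 4 * x + 2 := by fun_prop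
  have h1 : (0 : ℝ) ∈ Set.Icc ((fun x : ℝ => x ^ 5 - 4 * x + 2) (-2))
    ((fun x : ℝ => x ^ 5 - 4 * x + 2) (-1)) := by constructor <;> norm_num
  have h2 : (0 : ℝ) ∈ Set.Icc ((fun x : ℝ => x ^ 5 - 4 * x + 2) 1)
    ((fun x : ℝ => x ^ 5 - 4 * x + 2) 0) := by constructor <;> norm_num
  have h3 : (0 : ℝ) ∈ Set.Icc ((fun x : ℝ => x ^ 5 - 4 * x + 2) 1)
    ((fun x : ℝ => x ^ 5 - 4 * x + 2) 2) := by constructor <;> norm_num
  obtain ⟨x, hx, hx0⟩ := intermediate_value_Icc (by norm_num : (-2 : ℝ) ≤ -1) hc.continuousOn h1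
  obtain ⟨y, hy, hy0⟩ := intermediate_value_Icc' (by norm_num : (0 : ℝ) ≤ 1) hc.continuousOn h2
  obtain ⟨z, hz, hz0⟩ := intermediate_value_Icc (by norm_num : (1 : ℝ) ≤ 2) hc.continuousOn h3
  simp only at hx0 hy0 hz0
  refine ⟨x, y, z, by linarith [hx.2, hy.1], lt_of_le_of_ne (by linarith [hy.2, hz.1]) ?_, hx0, hy0, hz0⟩
  rintro rfl
  have : y = 1 := le_antisymm hy.2 hz.1
  rw [this] at hy0
  norm_num at hy0

/-- a root which is not real -/
theorem nonreal : ∃ z : ℂ, z ^ 5 - 4 * z + 2 = 0 ∧ (starRingEnd ℂ) z ≠ z := by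
  by_contra hcon
  push Not at hcon
  have h5 : Fintype.card (f.rootSet ℂ) = 5 := complex_roots_Phi 4 2 f_irr.separable
  have h3 : Fintype.card (f.rootSet ℝ) ≤ 3 := real_roots_Phi_le 4 2
  have hle : Fintype.card (f.rootSet ℂ) ≤ Fintype.card (f.rootSet ℝ) := by
    refine Fintype.card_le_of_injective (fun z => ⟨(z : ℂ).re, ?_⟩) ?_
    · have hz := (mem_f _).1 z.2
      have hr := hcon _ hz
      rw [Complex.conj_eq_iff_re] at hr
      rw [mem_f]
      rw [← hr] at hz
      exact_mod_cast hz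
    · intro z w hzw
      have hz := hcon _ ((mem_f _).1 z.2)
      have hw := hcon _ ((mem_f _).1 w.2)
      rw [Complex.conj_eq_iff_re] at hz hw
      have : (z : ℂ).re = (w : ℂ).re := by simpa using hzw
      ext
      rw [← hz, ← hw, this]
  omega

theorem galf : Function.Bijective (Gal.galActionHom f ℂ) := gal_Phi 4 2 (by norm_num) f_irr

theorem t_FIELD : Pool.Agent.W527.CL.S_FIELD := by
  obtain ⟨x, y, z, hxy, hyz, hx, hy, hz⟩ := real3
  obtain ⟨w, hw, hwr⟩ := nonreal
  let β : Fin 5 → ℂ := ![(x : ℂ), (y : ℂ), (z : ℂ), w, (starRingEnd ℂ) w]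
  have hconj : ∀ k, (starRingEnd ℂ) (β k) = β (Equiv.swap 3 4 k) := by
    intro k
    fin_cases k
    · have : Equiv.swap (3 : Fin 5) 4 0 = 0 := by decide
      simp [β, this]
    · have : Equiv.swap (3 : Fin 5) 4 1 = 1 := by decide
      simp [β, this]
    · have : Equiv.swap (3 : Fin 5) 4 2 = 2 := by decide
      simp [β, this]
    · have : Equiv.swap (3 : Fin 5) 4 3 = 4 := by decide
      simp [β, this]
    · have : Equiv.swap (3 : Fin 5) 4 4 = 3 := by decide
      simp [β, this]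
  have hroot : ∀ k, β k ^ 5 - 4 * β k + 2 = 0 := by
    intro k
    have hwc : (starRingEnd ℂ) w ^ 5 - 4 * (starRingEnd ℂ) w + 2 = 0 := by
      have := congrArg (starRingEnd ℂ) hw
      have e4 : (starRingEnd ℂ) 4 = 4 := map_ofNat _ 4
      have e2 : (starRingEnd ℂ) 2 = 2 := map_ofNat _ 2
      simpa [e4, e2] using this
    fin_cases k
    · simp only [β]
      show (x : ℂ) ^ 5 - 4 * (x : ℂ) + 2 = 0
      exact_mod_cast hx
    · simp only [β]
      show (y : ℂ) ^ 5 - 4 * (y : ℂ) + 2 = 0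
      exact_mod_cast hy
    · simp only [β]
      show (z : ℂ) ^ 5 - 4 * (z : ℂ) + 2 = 0
      exact_mod_cast hz
    · exact hw
    · exact hwc
  have hwx : ∀ r : ℝ, w ≠ (r : ℂ) := by
    intro r hr
    apply hwr
    rw [hr, Complex.conj_ofReal]
  have hwx' : ∀ r : ℝ, (starRingEnd ℂ) w ≠ (r : ℂ) := by
    intro r hr
    have := congrArg (starRingEnd ℂ) hr
    rw [Complex.conj_conj, Complex.conj_ofReal] at this
    exact hwx r this
  have hinj : Function.Injective β := by
    have hxy' : (x : ℂ) ≠ y := by exact_mod_cast hxy.ne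
    have hyz' : (y : ℂ) ≠ z := by exact_mod_cast hyz.ne
    have hxz' : (x : ℂ) ≠ z := by exact_mod_cast (hxy.trans hyz).ne
    intro a b hab
    fin_cases a <;> fin_cases b <;> first
      | rfl
      | exact absurd hab hxy'
      | exact absurd hab hxy'.symm
      | exact absurd hab hyz'
      | exact absurd hab hyz'.symm
      | exact absurd hab hxz'
      | exact absurd hab hxz'.symm
      | exact absurd hab (hwx _)
      | exact absurd hab (hwx _).symm
      | exact absurd hab (hwx' _)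
      | exact absurd hab (hwx' _).symm
      | exact absurd hab hwr
      | exact absurd hab hwr.symm
  have h5 : Fintype.card (f.rootSet ℂ) = 5 := complex_roots_Phi 4 2 f_irr.separable
  let e0 : Fin 5 → f.rootSet ℂ := fun k => ⟨β k, (mem_f _).2 (hroot k)⟩
  have he0 : Function.Bijective e0 := by
    rw [Fintype.bijective_iff_injective_and_card]
    refine ⟨fun a b hab => hinj (by simpa [e0] using hab), ?_⟩
    rw [h5, Fintype.card_fin]
  let e : Fin 5 ≃ f.rootSet ℂ := Equiv.ofBijective e0 he0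
  have he : ∀ k, ((e k : f.rootSet ℂ) : ℂ) = β k := fun k => rfl
  have : NumberField f.SplittingField := ⟨⟩
  refine ⟨f.SplittingField, inferInstance, inferInstance, ⟨?_⟩⟩
  let b : Fin 5 → f.SplittingField := fun k => (Gal.rootsEquivRoots f ℂ).symm (e k)
  have hbK : ∀ k, b k ^ 5 - 4 * b k + 2 = 0 := fun k =>
    (mem_f _).1 ((Gal.rootsEquivRoots f ℂ).symm (e k)).2
  have hbinj : Function.Injective b := by
    intro k l hkl
    have h1 : (Gal.rootsEquivRoots f ℂ).symm (e k) = (Gal.rootsEquivRoots f ℂ).symm (e l) :=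
      Subtype.ext hkl
    exact e.injective ((Gal.rootsEquivRoots f ℂ).symm.injective h1)
  have hι : ∀ s : f.rootSet f.SplittingField,
      (algebraMap f.SplittingField ℂ) (s : f.SplittingField) = (Gal.rootsEquivRoots f ℂ s : ℂ) :=
    fun s => rfl
  refine
    { b := b
      β := β
      inj := hinj
      root := hroot
      rootK := hbK
      conj := hconj
      emb := ?_
      surj := ?_ }
  · intro φ
    have hφr : ∀ k, φ (b k) ∈ f.rootSet ℂ := by
      intro k
      rw [mem_f]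
      have := congrArg φ (hbK k)
      have e4 : φ 4 = 4 := map_ofNat _ 4
      have e2 : φ 2 = 2 := map_ofNat _ 2
      simpa [e4, e2] using this
    let q : Fin 5 → Fin 5 := fun k => e.symm ⟨φ (b k), hφr k⟩
    have hq : Function.Injective q := by
      intro k l hkl
      have h1 := e.symm.injective hkl
      have h2 : φ (b k) = φ (b l) := by simpa using h1
      exact hbinj (φ.injective h2)
    refine ⟨Equiv.ofBijective q (Finite.injective_iff_bijective.1 hq), fun k => ?_⟩
    show φ (b k) = β (q k)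
    rw [← he (q k)]
    simp [q]
  · intro p
    obtain ⟨g, hg⟩ := galf.2 (e.symm.trans (p.trans e))
    let g' : f.SplittingField ≃ₐ[ℚ] f.SplittingField := g
    refine ⟨(algebraMap f.SplittingField ℂ).comp (g' : f.SplittingField →+* f.SplittingField),
      fun k => ?_⟩
    have h1 : Gal.galActionHom f ℂ g (e k) = e (p k) := by
      have := congrArg (fun s => s (e k)) hg
      simpa using this
    have h2 : Gal.galActionHom f ℂ g (e k) =
        Gal.rootsEquivRoots f ℂ (g • ((Gal.rootsEquivRoots f ℂ).symm (e k))) := rfl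
    rw [h2] at h1
    have h3 := congrArg (fun s : f.rootSet ℂ => (s : ℂ)) h1
    have h4 := hι (g • ((Gal.rootsEquivRoots f ℂ).symm (e k)))
    exact h4.trans h3

end

end Pool.Agent.W308.CL
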